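import Pool.Agent.Y518.CC.MStm

/-!
# Limits of measures with a fixed restriction to a smaller `σ`-algebra
-/

set_option autoImplicit false

namespace Pool.Agent.Y620.CC.Reg

open MeasureTheory Filter Topology Pool.Agent.Y518.CC

variable {k : ℕ}

/-- The finite cylinders in `cE S`. -/
def pis (S : Set (Lab k)) : Set (Set (Om k)) := {B | B ∈ cF k ∧ MeasurableSet[cE S] B}

theorem pis_pi (S : Set (Lab k)) : IsPiSystem (pis S) := by
  rintro B ⟨h1, h2⟩ C ⟨h3, h4⟩ _
  exact ⟨inter_mem_measurableCylinders h1 h3, MeasurableSet.inter h2 h4⟩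

theorem cE_eq (S : Set (Lab k)) : cE S = MeasurableSpace.generateFrom (pis S) := by
  refine le_antisymm ?_ (MeasurableSpace.generateFrom_le fun B hB => hB.2)
  refine iSup₂_le fun a ha => ?_
  rintro B ⟨s, hs, rfl⟩
  refine MeasurableSpace.measurableSet_generateFrom ⟨?_, ?_⟩
  · refine (mem_measurableCylinders _).2
      ⟨{a}, (fun f => f ⟨a, Finset.mem_singleton_self a⟩) ⁻¹' s, ?_, ?_⟩
    · exact measurable_pi_apply _ hs
    · ext u
      simp [mem_cylinder]
  · exact measurable_cylinderEvent_apply ha hs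

theorem main : S_REG := by
  intro k Δ ν hν U μ hμ hlim S μ₀ hμ₀ heq B hB
  have hle : cE S ≤ MeasurableSpace.pi := cylinderEvents_le_pi
  have hmC : ∀ C ∈ cF k, MeasurableSet C := fun C hC =>
    MeasurableSet.of_mem_measurableCylinders hC
  induction B, hB using MeasurableSpace.induction_on_inter (cE_eq S) (pis_pi S) with
  | empty =>
    intro C hC
    simp
  | basic B hB =>
    intro C hC
    exact hlim _ (inter_mem_measurableCylinders hB.1 hC)
  | compl B hB ih =>
    intro C hC
    have h1 : ∀ (m : Measure (Om k)) [IsProbabilityMeasure m],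
        m (Bᶜ ∩ C) = m C - m (B ∩ C) := by
      intro m _
      have h2 : Bᶜ ∩ C = C \ (B ∩ C) := by
        ext u
        simp only [Set.mem_inter_iff, Set.mem_compl_iff, Set.mem_sdiff]
        tauto
      rw [h2, measure_sdiff Set.inter_subset_right
        ((hle _ hB).inter (hmC C hC)).nullMeasurableSet (measure_ne_top _ _)]
    have h3 : (fun d => ν d (Bᶜ ∩ C)) = fun d => ν d C - ν d (B ∩ C) := by
      funext d
      have := hν d
      exact h1 (ν d)
    rw [h1 μ, h3]
    exact ENNReal.Tendsto.sub (hlim C hC) (ih C hC) (Or.inl (measure_ne_top _ _))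
  | iUnion f hd hm ih =>
    intro C hC
    have hmf : ∀ n, MeasurableSet (f n ∩ C) := fun n => (hle _ (hm n)).inter (hmC C hC)
    have hdC : Pairwise (Function.onFun Disjoint fun n => f n ∩ C) := fun i j hij =>
      (hd hij).mono Set.inter_subset_left Set.inter_subset_left
    have hU : (⋃ n, f n) ∩ C = ⋃ n, f n ∩ C := Set.iUnion_inter C f
    have hfin : ∀ (m : Measure (Om k)) (n : ℕ),
        m (⋃ i ∈ Finset.range n, f i ∩ C) = ∑ i ∈ Finset.range n, m (f i ∩ C) := fun m n =>
      measure_biUnion_finset (fun i _ j _ hij => hdC hij) fun i _ => hmf i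
    have hs : Tendsto (fun n => ∑ i ∈ Finset.range n, μ (f i ∩ C)) atTop
        (𝓝 (μ ((⋃ n, f n) ∩ C))) := by
      rw [hU, measure_iUnion hdC hmf]
      exact ENNReal.tendsto_nat_tsum _
    have hsd : ∀ n, Tendsto (fun d => ∑ i ∈ Finset.range n, ν d (f i ∩ C)) U
        (𝓝 (∑ i ∈ Finset.range n, μ (f i ∩ C))) := fun n =>
      tendsto_finsetSum _ fun i _ => ih i C hC
    refine tendsto_of_le_liminf_of_limsup_le ?_ ?_
    · refine le_of_tendsto' hs fun n => ?_
      rw [← (hsd n).liminf_eq]
      refine liminf_le_liminf (Eventually.of_forall fun d => ?_)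
      rw [← hfin, hU]
      exact measure_mono (Set.iUnion₂_subset fun i _ => Set.subset_iUnion (fun i => f i ∩ C) i)
    · let R : ℕ → Set (Om k) := fun m => ⋃ n, f (n + m)
      have hRm : ∀ m, MeasurableSet[cE S] (R m) := fun m =>
        MeasurableSet.iUnion fun n => hm (n + m)
      have hR0 : Tendsto (fun m => μ₀ (R m)) atTop (𝓝 0) := by
        have h1 : ∀ m, μ₀ (R m) = ∑' n, μ₀ (f (n + m)) := fun m =>
          measure_iUnion (fun i j hij => hd (fun h => hij (Nat.add_right_cancel h)))
            fun n => hle _ (hm (n + m))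
        simp_rw [h1]
        refine ENNReal.tendsto_sum_nat_add (fun n => μ₀ (f n)) ?_
        rw [← measure_iUnion hd fun n => hle _ (hm n)]
        exact measure_ne_top _ _
      have hlim2 : Tendsto (fun m => ∑ i ∈ Finset.range m, μ (f i ∩ C) + μ₀ (R m)) atTop
          (𝓝 (μ ((⋃ n, f n) ∩ C))) := by
        simpa using hs.add hR0
      refine ge_of_tendsto' hlim2 fun m => ?_
      have h2 : Tendsto (fun d => ∑ i ∈ Finset.range m, ν d (f i ∩ C) + ν d (R m)) U
          (𝓝 (∑ i ∈ Finset.range m, μ (f i ∩ C) + μ₀ (R m))) := by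
        refine (hsd m).add ?_
        exact tendsto_const_nhds.congr' ((heq _ (hRm m)).mono fun d hd => hd.symm)
      rw [← h2.limsup_eq]
      refine limsup_le_limsup (Eventually.of_forall fun d => ?_)
      change ν d ((⋃ i, f i) ∩ C) ≤ ∑ i ∈ Finset.range m, ν d (f i ∩ C) + ν d (R m)
      rw [← hfin]
      refine (measure_mono ?_).trans (measure_union_le _ _)
      rintro u ⟨hu, huC⟩
      obtain ⟨n, hn⟩ := Set.mem_iUnion.1 hu
      by_cases h : n < m
      · exact Or.inl (Set.mem_iUnion₂.2 ⟨n, Finset.mem_range.2 h, hn, huC⟩)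
      · refine Or.inr (Set.mem_iUnion.2 ⟨n - m, ?_⟩)
        rwa [Nat.sub_add_cancel (not_lt.1 h)]

end Pool.Agent.Y620.CC.Reg
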